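import Pool.Agent.H5.Ind.Master
import Pool.Agent.H52.Trap.Order

set_option autoImplicit false

/-!
# Thomassen's conjecture on arc-disjoint in- and out-arborescences: few traps, many
out-neighbours, bounded independence number

Let every nonempty proper vertex set of a finite directed multigraph have at least `k` outgoing
arcs and let `r` be a vertex.  A trap is a set `U` of vertices each of which has at most two arcs
leaving `U`.  The digraph has a spanning out-arborescence and a spanning in-arborescence, both
rooted at `r`, without common arcs, if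

* some set of at most `k - 10` vertices meets every nonempty trap avoiding `r` (in the digraph or
  in the reversed digraph);
* `∑_{v ≠ r} min(1, 3 / (d(v) + 1)) < k - 9`, `d(v)` the number of distinct out-neighbours (or the
  same with in-neighbours); for instance every vertex has at least `δ` distinct out-neighbours and
  `3 (n - 1) < (k - 9) (δ + 1)`;
* every set of pairwise non-adjacent vertices has at most `α` elements and `k ≥ 5 α + 10`.
-/

namespace Pool.Agent.Results.MP_4c21b8_co.BoundedIndependence

open Finset Pool.Agent.H5.Ind Pool.Agent.H52.Trap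

/-- The directed multigraph has a spanning out-arborescence `T₁` and a spanning in-arborescence
`T₂`, both rooted at `r`, without a common arc: `T₁` and `T₂` have `|V| - 1` arcs each, every
vertex is reached from `r` by a directed path in `T₁` and reaches `r` by a directed path in
`T₂`. -/
def HasPair {V A : Type} [Fintype V] (tail head : A → V) (r : V) : Prop :=
  ∃ T₁ T₂ : Finset A, Disjoint T₁ T₂ ∧ T₁.card + 1 = Fintype.card V ∧
    T₂.card + 1 = Fintype.card V ∧ ∀ v : V,
      Relation.ReflTransGen (fun x y : V => ∃ a ∈ T₁, tail a = x ∧ head a = y) r v ∧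
      Relation.ReflTransGen (fun x y : V => ∃ a ∈ T₂, tail a = x ∧ head a = y) v r

/-- `M` meets every nonempty trap which avoids `r`; a trap is a vertex set `U` such that every
vertex of `U` has at most two arcs leaving `U`. -/
def MeetsTraps {V A : Type} [DecidableEq V] [Fintype A] (tail head : A → V) (r : V)
    (M : Finset V) : Prop :=
  ∀ U : Finset V, U.Nonempty → r ∉ U →
    (∀ u ∈ U, (Finset.univ.filter (fun a : A => tail a = u ∧ head a ∉ U)).card ≤ 2) →
    ∃ u ∈ U, u ∈ M

open Classical in
/-- The set of out-neighbours of `v`: the vertices `w ≠ v` for which some arc leads from `v` to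
`w`. -/
noncomputable def outNbrs {V A : Type} [Fintype V] (tail head : A → V) (v : V) : Finset V :=
  Finset.univ.filter (fun w => w ≠ v ∧ ∃ a : A, tail a = v ∧ head a = w)

lemma mem_outNbrs {V A : Type} [Fintype V] {tail head : A → V} {v w : V} :
    w ∈ outNbrs tail head v ↔ w ≠ v ∧ ∃ a : A, tail a = v ∧ head a = w := by
  unfold outNbrs
  simp

/-- A set of vertices each of which has at most four earlier neighbours contains an independent
set of a fifth of its size. -/
lemma exists_indep {V : Type} [DecidableEq V] (Adj : V → V → Prop) (hsymm : ∀ u v, Adj u v → Adj v u)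
    (f : V → ℕ) (hf : Function.Injective f) (Nb : V → Finset V)
    (hNb : ∀ u v, Adj u v → f u < f v → u ∈ Nb v) :
    ∀ (n : ℕ) (S : Finset V), S.card ≤ n → (∀ v ∈ S, (Nb v).card ≤ 4) →
      ∃ I ⊆ S, (∀ u ∈ I, ∀ v ∈ I, u ≠ v → ¬ Adj u v) ∧ S.card ≤ 5 * I.card := by
  classical
  intro n
  induction n with
  | zero =>
    intro S hS _
    refine ⟨∅, empty_subset _, fun u hu => by simp at hu, by omega⟩
  | succ n ih =>
    intro S hS hdeg
    rcases S.eq_empty_or_nonempty with h | h
    · refine ⟨∅, empty_subset _, fun u hu => by simp at hu, by rw [h]; simp⟩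
    · obtain ⟨v, hv, hmax⟩ := exists_max_image S f h
      have h1 : (insert v (Nb v)).card ≤ 5 := (card_insert_le _ _).trans (by
        have := hdeg v hv
        omega)
      have h2 := le_card_sdiff (insert v (Nb v)) S
      have h3 : (S \ insert v (Nb v)).card < S.card := by
        apply card_lt_card
        rw [ssubset_iff_of_subset sdiff_subset]
        exact ⟨v, hv, fun h' => (mem_sdiff.1 h').2 (mem_insert_self _ _)⟩
      obtain ⟨I, hIS, hI, hIc⟩ := ih (S \ insert v (Nb v)) (by omega)
        (fun w hw => hdeg w (mem_sdiff.1 hw).1)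
      have hvI : v ∉ I := fun h' => (mem_sdiff.1 (hIS h')).2 (mem_insert_self _ _)
      have key : ∀ u ∈ I, ¬ Adj u v := by
        intro u hu hadj
        have hu' := mem_sdiff.1 (hIS hu)
        have h4 : f u ≤ f v := hmax u hu'.1
        have h5 : f u ≠ f v := fun h' => hu'.2 (by rw [hf h']; exact mem_insert_self _ _)
        exact hu'.2 (mem_insert_of_mem (hNb u v hadj (by omega)))
      refine ⟨insert v I, ?_, ?_, ?_⟩
      · intro u hu
        rcases mem_insert.1 hu with h' | h'
        · rw [h']; exact hv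
        · exact (mem_sdiff.1 (hIS h')).1
      · intro u hu w hw huw
        rcases mem_insert.1 hu with h4 | h4 <;> rcases mem_insert.1 hw with h5 | h5
        · exact absurd (h4.trans h5.symm) huw
        · rw [h4]
          exact fun h' => key w h5 (hsymm _ _ h')
        · rw [h5]
          exact key u h4
        · exact hI u h4 w h5 huw
      · rw [card_insert_of_notMem hvI]
        omega

/-- reversing all arcs -/
lemma hasPair_swap {V A : Type} [Fintype V] [DecidableEq V] [Fintype A] {tail head : A → V}
    {r : V} (h : HasPair head tail r) : HasPair tail head r := by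
  classical
  obtain ⟨T₁, T₂, h1, h2, h3, h4⟩ := h
  exact ⟨T₂, T₁, h1.symm, h3, h2, fun v => ⟨(rch_swap tail head T₂ v r).1 (h4 v).2,
    (rch_swap tail head T₁ r v).1 (h4 v).1⟩⟩

/-- reversing all arcs -/
lemma hcut_swap {V A : Type} [Fintype V] [DecidableEq V] [Fintype A] {tail head : A → V} {k : ℕ}
    (hcut : ∀ S : Finset V, S.Nonempty → S ≠ Finset.univ →
      k ≤ (Finset.univ.filter (fun a : A => tail a ∈ S ∧ head a ∉ S)).card) (S : Finset V)
    (h1 : S.Nonempty) (h2 : S ≠ Finset.univ) :
    k ≤ (Finset.univ.filter (fun a : A => head a ∈ S ∧ tail a ∉ S)).card := by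
  have h3 := hcut (univ \ S) (by
    rw [sdiff_nonempty]
    intro h
    exact h2 (Subset.antisymm (subset_univ _) h)) (by
    intro h
    obtain ⟨v, hv⟩ := h1
    have : v ∈ univ \ S := by rw [h]; exact mem_univ v
    exact (mem_sdiff.1 this).2 hv)
  refine h3.trans (card_le_card ?_)
  intro a ha
  rw [mem_filter, mem_sdiff, mem_sdiff] at ha
  rw [mem_filter]
  refine ⟨mem_univ _, ?_, ha.2.1.2⟩
  by_contra h
  exact ha.2.2 ⟨mem_univ _, h⟩

/-- few hubs -/
lemma hasPair_of_order {V A : Type} [Fintype V] [DecidableEq V] [Fintype A] {tail head : A → V}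
    {k : ℕ} (hcut : ∀ S : Finset V, S.Nonempty → S ≠ Finset.univ →
      k ≤ (Finset.univ.filter (fun a : A => tail a ∈ S ∧ head a ∉ S)).card) (r : V)
    (M : Finset V) (f : V → ℕ)
    (hf : ∀ z, z ∉ M → z ≠ r → 3 ≤ (univ.filter fun a => tail a = z ∧ f (head a) < f z).card)
    (hM : M.card + 10 ≤ k) : HasPair tail head r := by
  classical
  obtain ⟨F₁, F₂, hdisj, hreach⟩ := master tail head r M f hf
    (fun S h1 h2 => hM.trans (hcut S h1 h2))
  obtain ⟨T₁, hT₁, hc₁, hr₁⟩ := prune tail head r F₁ (fun v => (hreach v).1)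
  obtain ⟨T₂, hT₂, hc₂, hr₂⟩ := prune_in tail head r F₂ (fun v => (hreach v).2)
  exact ⟨T₁, T₂, (hdisj.mono_left hT₁).mono_right hT₂, hc₁, hc₂, fun v => ⟨hr₁ v, hr₂ v⟩⟩

/-- traps -/
lemma hasPair_of_traps {V A : Type} [Fintype V] [DecidableEq V] [Fintype A] {tail head : A → V}
    {k : ℕ} (hcut : ∀ S : Finset V, S.Nonempty → S ≠ Finset.univ →
      k ≤ (Finset.univ.filter (fun a : A => tail a ∈ S ∧ head a ∉ S)).card) (r : V)
    (M : Finset V) (hM : M.card + 10 ≤ k) (h : MeetsTraps tail head r M) :
    HasPair tail head r := by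
  obtain ⟨f, hf⟩ := order_of_traps tail head r M h
  exact hasPair_of_order hcut r M f hf hM

/-- many out-neighbours -/
lemma hasPair_of_nbrs {V A : Type} [Fintype V] [DecidableEq V] [Fintype A] {tail head : A → V}
    {k : ℕ} (hcut : ∀ S : Finset V, S.Nonempty → S ≠ Finset.univ →
      k ≤ (Finset.univ.filter (fun a : A => tail a ∈ S ∧ head a ∉ S)).card) (r : V)
    (h : ∑ v ∈ Finset.univ.erase r, min 1 (3 / (((outNbrs tail head v).card : ℝ) + 1)) + 9 < k) :
    HasPair tail head r := by
  classical
  obtain ⟨M, f, h1, h2⟩ := good_order tail head r (outNbrs tail head)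
    (fun v hv => (mem_outNbrs.1 hv).1 rfl) (fun v w hw => (mem_outNbrs.1 hw).2)
  refine hasPair_of_order hcut r M f h1 ?_
  have h3 : ((M.card + 9 : ℕ) : ℝ) < (k : ℝ) := by
    push_cast
    linarith
  have h4 : M.card + 9 < k := by exact_mod_cast h3
  omega

/-- **Thomassen's conjecture for few traps.**  It suffices that at most `k - 10` vertices meet all
traps avoiding `r`, for instance if the vertices have many out-neighbours or if the independence
number is small compared with `k`. -/
theorem result (k : ℕ) (V A : Type) [Fintype V] [DecidableEq V] [Fintype A] (tail head : A → V)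
    (hcut : ∀ S : Finset V, S.Nonempty → S ≠ Finset.univ →
      k ≤ (Finset.univ.filter (fun a : A => tail a ∈ S ∧ head a ∉ S)).card)
    (r : V)
    (h : (∃ M : Finset V, M.card + 10 ≤ k ∧
          (MeetsTraps tail head r M ∨ MeetsTraps head tail r M)) ∨
      (∑ v ∈ Finset.univ.erase r, min 1 (3 / (((outNbrs tail head v).card : ℝ) + 1)) + 9 < k ∨
        ∑ v ∈ Finset.univ.erase r, min 1 (3 / (((outNbrs head tail v).card : ℝ) + 1)) + 9 < k) ∨
      (∃ δ : ℕ, 3 * (Fintype.card V - 1) < (k - 9) * (δ + 1) ∧
        ((∀ v, δ ≤ (outNbrs tail head v).card) ∨ (∀ v, δ ≤ (outNbrs head tail v).card))) ∨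
      (∃ α : ℕ, 5 * α + 10 ≤ k ∧ ∀ I : Finset V,
        (∀ u ∈ I, ∀ v ∈ I, u ≠ v → ¬ ∃ a : A, tail a = u ∧ head a = v) → I.card ≤ α)) :
    HasPair tail head r := by
  classical
  have hcut' := hcut_swap hcut
  have hδ : ∀ (t h : A → V) (δ : ℕ), (∀ v, δ ≤ (outNbrs t h v).card) →
      3 * (Fintype.card V - 1) < (k - 9) * (δ + 1) →
      ∑ v ∈ Finset.univ.erase r, min 1 (3 / (((outNbrs t h v).card : ℝ) + 1)) + 9 < k := by
    intro t h δ h1 h2
    have hn : 1 ≤ Fintype.card V := Fintype.card_pos_iff.2 ⟨r⟩
    have hk : 9 < k := by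
      by_contra hcon
      have : k - 9 = 0 := by omega
      rw [this, zero_mul] at h2
      omega
    have h3 : ∑ v ∈ Finset.univ.erase r, min 1 (3 / (((outNbrs t h v).card : ℝ) + 1))
        ≤ ((Fintype.card V - 1 : ℕ) : ℝ) * (3 / ((δ : ℝ) + 1)) := by
      calc _ ≤ ∑ _v ∈ Finset.univ.erase r, 3 / ((δ : ℝ) + 1) := by
            refine sum_le_sum fun v _ => (min_le_right _ _).trans ?_
            have h4 : (δ : ℝ) ≤ ((outNbrs t h v).card : ℝ) := by exact_mod_cast h1 v
            gcongr
        _ = _ := by
            rw [sum_const, card_erase_of_mem (mem_univ r), card_univ, nsmul_eq_mul]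
    have h5 : (3 : ℝ) * ((Fintype.card V - 1 : ℕ) : ℝ) < ((k : ℝ) - 9) * ((δ : ℝ) + 1) := by
      have h6 : ((3 * (Fintype.card V - 1) : ℕ) : ℝ) < (((k - 9) * (δ + 1) : ℕ) : ℝ) := by
        exact_mod_cast h2
      rw [Nat.cast_mul, Nat.cast_mul, Nat.cast_sub hk.le] at h6
      push_cast at h6 ⊢
      exact h6
    have h7 : ((Fintype.card V - 1 : ℕ) : ℝ) * (3 / ((δ : ℝ) + 1)) < (k : ℝ) - 9 := by
      rw [mul_div_assoc', div_lt_iff₀ (by positivity)]
      linarith
    linarith
  rcases h with ⟨M, hM, h | h⟩ | (h | h) | ⟨δ, hk, h | h⟩ | ⟨α, hk, hα⟩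
  · exact hasPair_of_traps hcut r M hM h
  · exact hasPair_swap (hasPair_of_traps hcut' r M hM h)
  · exact hasPair_of_nbrs hcut r h
  · exact hasPair_swap (hasPair_of_nbrs hcut' r h)
  · exact hasPair_of_nbrs hcut r (hδ tail head δ h hk)
  · exact hasPair_swap (hasPair_of_nbrs hcut' r (hδ head tail δ h hk))
  obtain ⟨f, hfi, hf⟩ := exists_order tail head _ (univ : Finset V) rfl
  rw [coe_univ, Set.injOn_univ] at hfi
  simp only [mem_univ, true_and, true_imp_iff] at hf
  -- the hubs
  let M : Finset V := (univ.filter fun v =>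
    (univ.filter fun a => tail a = v ∧ f (head a) < f v).card ≤ 2)
  have hMdeg : ∀ v ∈ M, (((univ.filter fun a => tail a = v ∧ f (head a) < f v).image head) ∪
      ((univ.filter fun a => head a = v ∧ f (tail a) < f v).image tail)).card ≤ 4 := by
    intro v hv
    have h1 := (mem_filter.1 hv).2
    have h2 := hf v
    refine (card_union_le _ _).trans ?_
    have h3 : ((univ.filter fun a => tail a = v ∧ f (head a) < f v).image head).card ≤
        (univ.filter fun a => tail a = v ∧ f (head a) < f v).card := card_image_le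
    have h4 : ((univ.filter fun a => head a = v ∧ f (tail a) < f v).image tail).card ≤
        (univ.filter fun a => head a = v ∧ f (tail a) < f v).card := card_image_le
    omega
  obtain ⟨I, hIM, hI, hIc⟩ := exists_indep
    (fun u v => ∃ a : A, (tail a = u ∧ head a = v) ∨ (tail a = v ∧ head a = u))
    (fun u v ⟨a, ha⟩ => ⟨a, ha.symm⟩) f hfi
    (fun v => ((univ.filter fun a => tail a = v ∧ f (head a) < f v).image head) ∪
      ((univ.filter fun a => head a = v ∧ f (tail a) < f v).image tail))
    (by
      rintro u v ⟨a, ⟨h1, h2⟩ | ⟨h1, h2⟩⟩ huv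
      · rw [mem_union]
        right
        rw [mem_image]
        exact ⟨a, mem_filter.2 ⟨mem_univ _, h2, by rw [h1]; exact huv⟩, h1⟩
      · rw [mem_union]
        left
        rw [mem_image]
        exact ⟨a, mem_filter.2 ⟨mem_univ _, h1, by rw [h2]; exact huv⟩, h2⟩)
    M.card M le_rfl hMdeg
  have hIα : I.card ≤ α := by
    apply hα
    intro u hu v hv huv ⟨a, ha⟩
    exact hI u hu v hv huv ⟨a, Or.inl ha⟩
  refine hasPair_of_order hcut r M f ?_ (by omega)
  intro z hz _
  by_contra h
  exact hz (mem_filter.2 ⟨mem_univ _, by omega⟩)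

end Pool.Agent.Results.MP_4c21b8_co.BoundedIndependence
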