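import Pool.Agent.H5.TW.Main

set_option autoImplicit false

/-!
# Thomassen's conjecture on arc-disjoint in- and out-arborescences for bounded treewidth

Let `D` be a finite directed multigraph in which every nonempty proper vertex set has at least
`w + 1` outgoing arcs. If the underlying graph of `D` has treewidth at most `w`, then `D` has
a spanning out-arborescence and a spanning in-arborescence with any prescribed common root which
are arc-disjoint. (The proof gives the same for a single root for every digraph with a two-sided
directed elimination ordering of width `w` ending at the root, see `hasPair_of_elim`.)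
-/

namespace Pool.Agent.Results.MP_4c21b8_co.BoundedTreewidth

open Finset Pool.Agent.H5.TW

/-- A tree decomposition of the graph `G` of width at most `w`. -/
structure TreeDecomposition {V : Type} (G : SimpleGraph V) (w : ℕ) where
  /-- the nodes of the tree -/
  node : Type
  /-- there are finitely many nodes -/
  fin : Fintype node
  /-- the tree -/
  tree : SimpleGraph node
  isTree : tree.IsTree
  /-- the bags -/
  bag : node → Finset V
  /-- the two ends of every edge lie together in some bag -/
  edge : ∀ u v, G.Adj u v → ∃ i, u ∈ bag i ∧ v ∈ bag i
  /-- the nodes whose bags contain a given vertex form a (nonempty) subtree -/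
  conn : ∀ v, (tree.induce {i | v ∈ bag i}).Connected
  /-- every bag has at most `w + 1` elements -/
  card_le : ∀ i, (bag i).card ≤ w + 1

/-- The underlying simple graph of the directed multigraph with vertex set `V`, arc set `A` and
the given tails and heads. -/
def underlying {V A : Type} (tail head : A → V) : SimpleGraph V :=
  SimpleGraph.fromRel fun x y => ∃ a, tail a = x ∧ head a = y

/-- The directed multigraph has a spanning out-arborescence `T₁` and a spanning in-arborescence
`T₂`, both rooted at `r`, without a common arc: `T₁` and `T₂` have `|V| - 1` arcs each, every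
vertex is reached from `r` by a directed path in `T₁` and reaches `r` by a directed path in
`T₂`. -/
def HasPair {V A : Type} [Fintype V] (tail head : A → V) (r : V) : Prop :=
  ∃ T₁ T₂ : Finset A, Disjoint T₁ T₂ ∧ T₁.card + 1 = Fintype.card V ∧
    T₂.card + 1 = Fintype.card V ∧ ∀ v : V,
      Relation.ReflTransGen (fun x y : V => ∃ a ∈ T₁, tail a = x ∧ head a = y) r v ∧
      Relation.ReflTransGen (fun x y : V => ∃ a ∈ T₂, tail a = x ∧ head a = y) v r

/-- Out-degrees of sets in terms of multiplicities. -/
lemma ec_eq {V A : Type} [Fintype V] [DecidableEq V] [Fintype A] (tail head : A → V)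
    (S : Finset V) :
    ec (fun x y => (univ.filter fun a : A => tail a = x ∧ head a = y).card) S (univ \ S)
      = (univ.filter fun a : A => tail a ∈ S ∧ head a ∉ S).card := by
  classical
  unfold ec
  rw [← sum_product', ← card_biUnion]
  · congr 1
    ext a
    simp only [mem_biUnion, mem_product, mem_filter, mem_univ, true_and, mem_sdiff]
    constructor
    · rintro ⟨⟨x, y⟩, ⟨h1, h2⟩, h3, h4⟩
      exact ⟨by rw [h3]; exact h1, by rw [h4]; exact h2⟩
    · rintro ⟨h1, h2⟩
      exact ⟨(tail a, head a), ⟨h1, h2⟩, rfl, rfl⟩
  · intro p _ q _ hpq
    rw [Function.onFun, disjoint_left]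
    intro a h1 h2
    simp only [mem_filter, mem_univ, true_and] at h1 h2
    apply hpq
    apply Prod.ext
    · rw [← h1.1, ← h2.1]
    · rw [← h1.2, ← h2.2]

theorem hasPair_of_elim (w : ℕ) (V A : Type) [Fintype V] [DecidableEq V] [Fintype A]
    (tail head : A → V)
    (hcut : ∀ S : Finset V, S.Nonempty → S ≠ Finset.univ →
      w + 1 ≤ (Finset.univ.filter (fun a : A => tail a ∈ S ∧ head a ∉ S)).card) (r : V)
    (h : Elim w r Finset.univ (fun x y => ∃ a : A, tail a = x ∧ head a = y)) :
    HasPair tail head r := by
  classical
  apply arcs_of_good
  apply good_of_elim h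
  · intro x _ y _ _ hm
    obtain ⟨a, ha⟩ := card_ne_zero.1 hm
    rw [mem_filter] at ha
    exact ⟨a, ha.2⟩
  · intro S _ hne hS
    rw [ec_eq]
    exact hcut S hne hS

/-- **Thomassen's conjecture for bounded treewidth.** Let `D` be a finite directed multigraph whose
underlying graph has treewidth at most `w` and in which every nonempty proper vertex set has at
least `w + 1` outgoing arcs. Then for every root `r` there are a spanning out-arborescence and a
spanning in-arborescence, both rooted at `r`, without a common arc. -/
theorem result (w : ℕ) (V A : Type) [Fintype V] [DecidableEq V] [Fintype A] (tail head : A → V)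
    (htw : Nonempty (TreeDecomposition (underlying tail head) w))
    (hcut : ∀ S : Finset V, S.Nonempty → S ≠ Finset.univ →
      w + 1 ≤ (Finset.univ.filter (fun a : A => tail a ∈ S ∧ head a ∉ S)).card)
    (r : V) : HasPair tail head r := by
  classical
  obtain ⟨D⟩ := htw
  apply hasPair_of_elim w V A tail head hcut r
  have hcard : (univ : Finset V).card = (Fintype.card V - 1) + 1 := by
    have := Fintype.card_pos_iff.2 ⟨r⟩
    rw [card_univ]; omega
  apply (elim_of_bags D.fin D.tree D.isTree D.bag (fun v => (D.conn v).preconnected) w D.card_le
    (fun v => by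
      obtain ⟨x⟩ := (D.conn v).nonempty
      exact ⟨x.1, x.2⟩) r _ univ hcard (mem_univ r)).mono
  intro x _ y _ hxy he
  apply D.edge
  unfold underlying
  rw [SimpleGraph.fromRel_adj]
  exact ⟨hxy, Or.inl he⟩

end Pool.Agent.Results.MP_4c21b8_co.BoundedTreewidth
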