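import Pool.Agent.H84.TT.Main
import Pool.Agent.H84.TT.Main2

set_option autoImplicit false

/-!
# The laminar form of Thomassen's conjecture

In Thomassen's conjecture the arcs are coloured red and blue such that a red arc enters and a blue
arc leaves every nonempty vertex set which avoids the root. Here this is done for the members of a
laminar family, with the constant `10`, and with `t` colours, each of which enters and leaves every
member, with the constant `13 t - 12`.
-/

namespace Pool.Agent.Results.MP_4c21b8_co.LaminarTree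

open Finset

/-- Any two members of the family are disjoint or one of them contains the other. -/
def Laminar {V : Type} (L : Finset (Finset V)) : Prop :=
  ∀ X ∈ L, ∀ Y ∈ L, Disjoint X Y ∨ X ⊆ Y ∨ Y ⊆ X

/-- The number of arcs which enter `X`. -/
def inDeg {V A : Type} [DecidableEq V] [Fintype A] (tail head : A → V) (X : Finset V) : ℕ :=
  (Finset.univ.filter fun a : A => tail a ∉ X ∧ head a ∈ X).card

/-- The number of arcs which leave `X`. -/
def outDeg {V A : Type} [DecidableEq V] [Fintype A] (tail head : A → V) (X : Finset V) : ℕ :=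
  (Finset.univ.filter fun a : A => tail a ∈ X ∧ head a ∉ X).card

/-- The arcs can be coloured red and blue such that a red arc enters every member of `L₁` and a
blue arc leaves every member of `L₂`. -/
def RedBlue {V A : Type} (tail head : A → V) (L₁ L₂ : Finset (Finset V)) : Prop :=
  ∃ red : Set A, (∀ X ∈ L₁, ∃ a : A, a ∈ red ∧ tail a ∉ X ∧ head a ∈ X) ∧
    ∀ X ∈ L₂, ∃ a : A, a ∉ red ∧ tail a ∈ X ∧ head a ∉ X

/-- **The laminar form of Thomassen's conjecture.**
(1) If `L₁ ∪ L₂` is laminar, at least `10` arcs enter every member of `L₁` and at least `10` arcs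
leave every member of `L₂`, then there is a red/blue colouring such that a red arc enters every
member of `L₁` and a blue arc leaves every member of `L₂`.
(2) If `L₁ ∪ L₂` is laminar, `t ≥ 1`, at least `13 t - 12` arcs enter every member of `L₁` and at
least `13 t - 12` arcs leave every member of `L₂`, then the arcs can be coloured with `t` colours
such that arcs of all colours enter every member of `L₁` and leave every member of `L₂`. -/
theorem result :
    (∀ (V A : Type) [Fintype V] [DecidableEq V] [Fintype A] (tail head : A → V)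
      (L₁ L₂ : Finset (Finset V)), Laminar (L₁ ∪ L₂) →
      (∀ X ∈ L₁, 10 ≤ inDeg tail head X) → (∀ X ∈ L₂, 10 ≤ outDeg tail head X) →
      RedBlue tail head L₁ L₂) ∧
    (∀ (t : ℕ), 1 ≤ t → ∀ (V A : Type) [Fintype V] [DecidableEq V] [Fintype A] (tail head : A → V)
      (L₁ L₂ : Finset (Finset V)), Laminar (L₁ ∪ L₂) →
      (∀ X ∈ L₁, 13 * t - 12 ≤ inDeg tail head X) → (∀ X ∈ L₂, 13 * t - 12 ≤ outDeg tail head X) →
      ∃ colour : A → Fin t, ∀ i : Fin t,
        (∀ X ∈ L₁, ∃ a : A, colour a = i ∧ tail a ∉ X ∧ head a ∈ X) ∧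
        ∀ X ∈ L₂, ∃ a : A, colour a = i ∧ tail a ∈ X ∧ head a ∉ X) := by
  classical
  refine ⟨?_, ?_⟩
  · intro V A _ hV _ tail head L₁ L₂ hl h1 h2
    obtain ⟨S, hS1, hS2⟩ := Pool.Agent.H84.TT.laminar_two (tail := tail) (head := head) (F := L₁)
      (G := L₂) (by
        intro X hX Y hY
        have hX' : X ∈ L₁ ∪ L₂ := by
          rw [mem_union] at hX ⊢
          exact hX
        have hY' : Y ∈ L₁ ∪ L₂ := by
          rw [mem_union] at hY ⊢
          exact hY
        exact hl X hX' Y hY')
      (by
        intro X hX
        refine (h1 X hX).trans (le_of_eq ?_)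
        unfold inDeg
        congr 1
        ext a
        simp only [mem_filter, mem_univ, true_and, Pool.Agent.H84.TT.mem_ent]
        exact and_comm)
      (by
        intro X hX
        exact h2 X hX)
    refine ⟨(S : Set A), fun X hX => ?_, fun X hX => ?_⟩
    · obtain ⟨a, ha, h3, h4⟩ := hS1 X hX
      exact ⟨a, mem_coe.2 ha, h4, h3⟩
    · obtain ⟨a, ha, h3⟩ := hS2 X hX
      exact ⟨a, fun h => ha (mem_coe.1 h), h3⟩
  · intro t ht V A _ hV _ tail head L₁ L₂ hl h1 h2
    obtain ⟨s, rfl⟩ : ∃ s, t = s + 1 := ⟨t - 1, by omega⟩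
    obtain ⟨c, hc, hci⟩ := Pool.Agent.H84.TT.laminar_color (tail := tail) (head := head) (F := L₁)
      (G := L₂) (by
        intro X hX Y hY
        have hX' : X ∈ L₁ ∪ L₂ := by
          rw [mem_union] at hX ⊢
          exact hX
        have hY' : Y ∈ L₁ ∪ L₂ := by
          rw [mem_union] at hY ⊢
          exact hY
        exact hl X hX' Y hY') s univ
      (by
        intro X hX
        have h3 := h1 X hX
        have h4 : inDeg tail head X = (Pool.Agent.H84.TT.ent tail head univ X).card := by
          unfold inDeg
          congr 1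
          ext a
          simp only [mem_filter, mem_univ, true_and, Pool.Agent.H84.TT.mem_ent]
          exact and_comm
        omega)
      (by
        intro X hX
        have h3 := h2 X hX
        have h4 : outDeg tail head X = (Pool.Agent.H84.TT.ent head tail univ X).card := rfl
        omega)
    refine ⟨fun a => ⟨c a, Nat.lt_succ_of_le (hc a)⟩, fun i => ⟨fun X hX => ?_, fun X hX => ?_⟩⟩
    · obtain ⟨a, -, h3, h4, h5⟩ := (hci i.val (Nat.le_of_lt_succ i.2)).1 X hX
      exact ⟨a, Fin.ext h3, h5, h4⟩
    · obtain ⟨a, -, h3, h4, h5⟩ := (hci i.val (Nat.le_of_lt_succ i.2)).2 X hX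
      exact ⟨a, Fin.ext h3, h4, h5⟩

end Pool.Agent.Results.MP_4c21b8_co.LaminarTree
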