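import Pool.Agent.H39.SC.Final
import Pool.Agent.H52.TH.Grow

set_option autoImplicit false

/-!
# Polylogarithmic arc-connectivity gives arc-disjoint in- and out-arborescences

Every directed multigraph with `n` vertices which is `k`-arc-connected for some
`k ≥ 2 * 10 ^ 14 * t ^ 4 * (log n) ^ 3` has a partition of its arcs into `t` classes such that every
class contains, for every vertex `r`, a spanning out-arborescence rooted at `r` and a spanning
in-arborescence rooted at `r`. With `t = 2` this gives, for all roots at once, arc-disjoint
spanning out- and in-arborescences.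
-/

namespace Pool.Agent.Results.MP_4c21b8_co.Polylog

open Finset Relation

/-- The arc set `S` contains a spanning out-arborescence rooted at `r`: a set `T` of `|V| - 1`
arcs such that every vertex is reached from `r` by a directed path in `T`. -/
def HasOut {V A : Type} [Fintype V] (tail head : A → V) (S : Finset A) (r : V) : Prop :=
  ∃ T ⊆ S, T.card + 1 = Fintype.card V ∧
    ∀ v : V, Relation.ReflTransGen (fun x y : V => ∃ a ∈ T, tail a = x ∧ head a = y) r v

/-- The arc set `S` contains a spanning in-arborescence rooted at `r`: a set `T` of `|V| - 1`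
arcs such that every vertex reaches `r` by a directed path in `T`. -/
def HasIn {V A : Type} [Fintype V] (tail head : A → V) (S : Finset A) (r : V) : Prop :=
  ∃ T ⊆ S, T.card + 1 = Fintype.card V ∧
    ∀ v : V, Relation.ReflTransGen (fun x y : V => ∃ a ∈ T, tail a = x ∧ head a = y) v r

/-- **Thomassen's conjecture with polylogarithmic arc-connectivity.** Let `D` be a directed
multigraph (vertices `V`, arcs `A`) with `n = |V|` vertices in which every nonempty proper vertex
set has at least `k` outgoing arcs, where `t ≥ 1` and `k ≥ 2 * 10 ^ 14 * t ^ 4 * (log n) ^ 3`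
(natural logarithm). Then the arcs can be coloured with `t` colours such that every colour class
contains, for every root `r`, a spanning out-arborescence and a spanning in-arborescence, both
rooted at `r`. -/
theorem result (t : ℕ) (ht : 1 ≤ t) (V A : Type) [Fintype V] [DecidableEq V] [Fintype A]
    (tail head : A → V) (k : ℕ)
    (hk : 2 * 10 ^ 14 * (t : ℝ) ^ 4 * Real.log (Fintype.card V) ^ 3 ≤ k)
    (hcut : ∀ S : Finset V, S.Nonempty → S ≠ Finset.univ →
      k ≤ (Finset.univ.filter (fun a : A => tail a ∈ S ∧ head a ∉ S)).card) :
    ∃ f : A → Fin t, ∀ (i : Fin t) (r : V),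
      HasOut tail head (Finset.univ.filter (fun a : A => f a = i)) r ∧
        HasIn tail head (Finset.univ.filter (fun a : A => f a = i)) r := by
  classical
  obtain ⟨f, hf⟩ := Pool.Agent.H39.SC.final_strong t ht V A tail head k hk hcut
  refine ⟨f, fun i r => ⟨?_, ?_⟩⟩
  · apply Pool.Agent.H52.TH.exists_out
    intro v
    refine ReflTransGen.mono ?_ r v (hf i r v)
    rintro x y ⟨a, h1, h2, h3⟩
    exact ⟨a, mem_filter.2 ⟨mem_univ _, h1⟩, h2, h3⟩
  · obtain ⟨T, hT, hc, h⟩ := Pool.Agent.H52.TH.exists_out (tail := head) (head := tail)
      (H := univ.filter (fun a : A => f a = i)) (r := r) (by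
        intro v
        have h1 : ReflTransGen (Function.swap fun x y : V => ∃ a : A, f a = i ∧ tail a = x ∧
          head a = y) r v := (hf i v r).swap
        refine ReflTransGen.mono ?_ r v h1
        rintro x y ⟨a, h1, h2, h3⟩
        exact ⟨a, mem_filter.2 ⟨mem_univ _, h1⟩, h3, h2⟩)
    refine ⟨T, hT, hc, fun v => ?_⟩
    have h2 : ReflTransGen (Function.swap fun x y : V => ∃ a ∈ T, head a = x ∧ tail a = y) v r :=
      (h v).swap
    refine ReflTransGen.mono ?_ v r h2
    rintro x y ⟨a, h1, h2, h3⟩
    exact ⟨a, h1, h3, h2⟩

end Pool.Agent.Results.MP_4c21b8_co.Polylog
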